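import Pool.Agent.W945.Lc.Stm

/-!
# Project LC: STAGE
-/

set_option autoImplicit false

namespace Pool.Agent.W239.Lc.STAGE

open Finset Pool.Agent.W945.Pw Pool.Agent.W945.Lc

theorem main : STAGE.Stm := by
  intro hB hI hD hM h2 h1 n s F hF
  by_cases k1 : ∃ b, ∀ x, F x = b
  · exact Or.inl k1
  by_cases k2 : ∃ i b, ∀ x, F x = xor (x i) b
  · exact Or.inr (Or.inl k2)
  right
  right
  obtain ⟨t, W, γ, hts, hW⟩ := hM hB hI hD n s F hF k1 k2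
  have ht := hW.pos
  obtain ⟨i, hi⟩ : ∃ i, W.A 0 = .inp i := by
    have h := W.hA 0 ht
    rcases hA : W.A 0 with i | j
    · exact ⟨i, rfl⟩
    · rw [hA] at h
      exact absurd h (Nat.not_lt_zero j)
  obtain ⟨j, hj⟩ : ∃ j, W.B 0 = .inp j := by
    have h := W.hB 0 ht
    rcases hA : W.B 0 with i | j
    · exact ⟨i, rfl⟩
    · rw [hA] at h
      exact absurd h (Nat.not_lt_zero j)
  have hij : i ≠ j := fun e => hW.ne 0 ht (by rw [hi, hj, e])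
  have mono : ∀ (G : Fn n) (k : ℕ), Drop G t k → Drop G s k := by
    rintro G k (h | ⟨s', h, h'⟩)
    · exact Or.inl h
    · exact Or.inr ⟨s', h, h'.trans hts⟩
  by_cases hu : ∃ k, 0 < k ∧ k < t ∧ (W.Uses k (.inp i) ∨ W.Uses k (.inp j))
  · left
    refine ⟨ht.trans hts, ?_⟩
    obtain ⟨k, k0, kt, hk | hk⟩ := hu
    · obtain ⟨c1, c2, h⟩ := h2 hB hD n t W F γ hW i 0 k k0 kt (Or.inl hi) hk
      exact ⟨i, c1, c2, fun c => mono _ _ (h c)⟩
    · obtain ⟨c1, c2, h⟩ := h2 hB hD n t W F γ hW j 0 k k0 kt (Or.inr hj) hk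
      exact ⟨j, c1, c2, fun c => mono _ _ (h c)⟩
  · right
    have hu' : ∀ k, 0 < k → k < t → ¬ W.Uses k (.inp i) ∧ ¬ W.Uses k (.inp j) := by
      intro k k0 kt
      exact ⟨fun h => hu ⟨k, k0, kt, Or.inl h⟩, fun h => hu ⟨k, k0, kt, Or.inr h⟩⟩
    obtain ⟨F', c1, a, b, c, ⟨L, d1, d2, d3⟩, e⟩ := h1 hD n t W F γ hW i j hij hi hj hu'
    exact ⟨ht.trans hts, i, j, W.α 0, W.β 0, c1, F', hij, a, b, c,
      ⟨L, d1, d2.trans (Nat.sub_le_sub_right hts 1), d3⟩, fun c => mono _ _ (e c)⟩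

end Pool.Agent.W239.Lc.STAGE
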